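import Pool.Agent.Helper55.CF.Goals

open MeasureTheory Complex
open scoped ContDiff ComplexConjugate

noncomputable section
namespace Pool.Agent.Helper19.CF
open CF55

/-- radial bump -/
def chi (ρ : ℝ) (y : ℂ) : ℝ := Real.smoothTransition (2 - ‖y‖ ^ 2 / ρ ^ 2)

lemma chi_smooth (ρ : ℝ) : ContDiff ℝ ∞ (chi ρ) := by
  unfold chi
  apply Real.smoothTransition.contDiff.comp
  apply ContDiff.sub contDiff_const
  exact (contDiff_norm_sq ℝ).div_const _

lemma chi_nonneg (ρ : ℝ) (y : ℂ) : 0 ≤ chi ρ y := Real.smoothTransition.nonneg _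

lemma chi_le_one (ρ : ℝ) (y : ℂ) : chi ρ y ≤ 1 := Real.smoothTransition.le_one _

lemma chi_radial (ρ : ℝ) (y : ℂ) : chi ρ y = chi ρ (‖y‖ : ℂ) := by
  unfold chi
  simp

lemma chi_eq_one {ρ : ℝ} (hρ : 0 < ρ) {y : ℂ} (hy : ‖y‖ ≤ ρ) : chi ρ y = 1 := by
  unfold chi
  apply Real.smoothTransition.one_of_one_le
  have : ‖y‖ ^ 2 / ρ ^ 2 ≤ 1 := by
    rw [div_le_one (by positivity)]
    exact pow_le_pow_left₀ (norm_nonneg _) hy 2
  linarith

lemma chi_eventually {ρ : ℝ} (hρ : 0 < ρ) : ∀ᶠ y in nhds (0 : ℂ), chi ρ y = 1 := by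
  filter_upwards [Metric.closedBall_mem_nhds (0 : ℂ) hρ] with y hy
  apply chi_eq_one hρ
  simpa using hy

lemma norm_lt_of_chi_ne {ρ : ℝ} (hρ : 0 < ρ) {y : ℂ} (hy : chi ρ y ≠ 0) : ‖y‖ ≤ 3 / 2 * ρ := by
  by_contra h
  apply hy
  unfold chi
  apply Real.smoothTransition.zero_of_nonpos
  push Not at h
  have h2 : 2 ≤ ‖y‖ ^ 2 / ρ ^ 2 := by
    rw [le_div_iff₀ (by positivity)]
    nlinarith
  linarith

lemma chi_compact {ρ : ℝ} (hρ : 0 < ρ) : HasCompactSupport (chi ρ) := by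
  apply HasCompactSupport.of_support_subset_isCompact (isCompact_closedBall (0 : ℂ) (3 / 2 * ρ))
  intro y hy
  simpa using norm_lt_of_chi_ne hρ hy

/-- bump on `Z` -/
lemma exists_phi {s : ℝ} (hs : 0 < s) : ∃ φ : Z → ℝ, ContDiff ℝ ∞ φ ∧ HasCompactSupport φ ∧
    tsupport φ ⊆ Metric.closedBall 0 (s / 2) ∧ (∀ z, 0 ≤ φ z) ∧ ∀ᶠ z in nhds 0, φ z = 1 := by
  let f : ContDiffBump (0 : Z) := ⟨s / 4, s / 2, by positivity, by linarith⟩
  refine ⟨f, f.contDiff, f.hasCompactSupport, ?_, fun z => f.nonneg, ?_⟩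
  · rw [f.tsupport_eq]
  · exact f.eventuallyEq_one

def Psi (ρ : ℝ) (φ : Z → ℝ) (q : E) : ℝ := chi ρ q.1 * (chi ρ q.2.1 * φ q.2.2)

lemma Psi_smooth (ρ : ℝ) {φ : Z → ℝ} (hφ : ContDiff ℝ ∞ φ) : ContDiff ℝ ∞ (Psi ρ φ) := by
  unfold Psi
  apply ContDiff.mul
  · exact (chi_smooth ρ).comp contDiff_fst
  · apply ContDiff.mul
    · exact (chi_smooth ρ).comp (contDiff_fst.comp contDiff_snd)
    · exact hφ.comp (contDiff_snd.comp contDiff_snd)

lemma Psi_support {ρ s : ℝ} (hρ : 0 < ρ) (hs : s ≤ 3 / 2 * ρ) {φ : Z → ℝ}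
    (h : tsupport φ ⊆ Metric.closedBall 0 s) :
    Function.support (Psi ρ φ) ⊆ Metric.closedBall 0 (3 / 2 * ρ) := by
  intro q hq
  have hq' : chi ρ q.1 * (chi ρ q.2.1 * φ q.2.2) ≠ 0 := hq
  have h1 := norm_lt_of_chi_ne hρ (left_ne_zero_of_mul hq')
  have h2 := norm_lt_of_chi_ne hρ (left_ne_zero_of_mul (right_ne_zero_of_mul hq'))
  have h3 : φ q.2.2 ≠ 0 := right_ne_zero_of_mul (right_ne_zero_of_mul hq')
  have h4 : q.2.2 ∈ Metric.closedBall 0 s := h (subset_tsupport _ h3)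
  have h5 : ‖q.2.2‖ ≤ s := by simpa using h4
  rw [mem_closedBall_zero_iff, Prod.norm_def, Prod.norm_def]
  exact max_le h1 (max_le h2 (h5.trans hs))

lemma Psi_compact {ρ s : ℝ} (hρ : 0 < ρ) (hs : s ≤ 3 / 2 * ρ) {φ : Z → ℝ}
    (h : tsupport φ ⊆ Metric.closedBall 0 s) : HasCompactSupport (Psi ρ φ) :=
  HasCompactSupport.of_support_subset_isCompact (isCompact_closedBall (0 : E) (3 / 2 * ρ))
    (Psi_support hρ hs h)

lemma Psi_tsupport {ρ s r : ℝ} (hρ : 0 < ρ) (hs : s ≤ 3 / 2 * ρ) (hr : 3 / 2 * ρ < r) {φ : Z → ℝ}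
    (h : tsupport φ ⊆ Metric.closedBall 0 s) : tsupport (Psi ρ φ) ⊆ Metric.ball 0 r :=
  (closure_minimal (Psi_support hρ hs h) Metric.isClosed_closedBall).trans
    (Metric.closedBall_subset_ball hr)

lemma contra (s : ℝ) (hs : s < 1) (c R₀ C : ℝ) (k : ℕ) (hc : 0 < c) (F : ℝ → ℝ)
    (h1 : ∀ R, R₀ ≤ R → c * R ^ (-s) ≤ F R)
    (h2 : ∀ R, 2 ≤ R → F R ≤ C * Real.log R ^ k / R) : False := by
  have ho : (fun x => Real.log x ^ (k : ℝ)) =o[Filter.atTop] fun x => x ^ (1 - s) :=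
    isLittleO_log_rpow_rpow_atTop (k : ℝ) (by linarith)
  have hb := ho.bound (c := c / (2 * (|C| + 1))) (by positivity)
  obtain ⟨R, hR, hR0, hR2⟩ := (hb.and ((Filter.eventually_ge_atTop R₀).and
    (Filter.eventually_ge_atTop 2))).exists
  have hRpos : 0 < R := by linarith
  have hlog : 0 ≤ Real.log R := Real.log_nonneg (by linarith)
  rw [Real.rpow_natCast, Real.norm_of_nonneg (pow_nonneg hlog k),
    Real.norm_of_nonneg (Real.rpow_nonneg hRpos.le _)] at hR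
  have h3 := (h1 R hR0).trans (h2 R hR2)
  rw [le_div_iff₀ hRpos] at h3
  have h4 : c * R ^ (-s) * R = c * R ^ (1 - s) := by
    rw [mul_assoc]
    congr 1
    rw [show (1 - s) = -s + 1 by ring, Real.rpow_add hRpos, Real.rpow_one]
  rw [h4] at h3
  have hpos : 0 < R ^ (1 - s) := Real.rpow_pos_of_pos hRpos _
  have h5 : C * Real.log R ^ k ≤ |C| * (c / (2 * (|C| + 1)) * R ^ (1 - s)) := by
    calc C * Real.log R ^ k ≤ |C| * Real.log R ^ k :=
          mul_le_mul_of_nonneg_right (le_abs_self C) (pow_nonneg hlog k)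
      _ ≤ _ := mul_le_mul_of_nonneg_left hR (abs_nonneg C)
  have h6 : |C| * (c / (2 * (|C| + 1)) * R ^ (1 - s)) ≤ c / 2 * R ^ (1 - s) := by
    have : |C| * (c / (2 * (|C| + 1))) ≤ c / 2 := by
      rw [mul_div_assoc', div_le_div_iff₀ (by positivity) (by norm_num)]
      nlinarith [abs_nonneg C]
    calc |C| * (c / (2 * (|C| + 1)) * R ^ (1 - s))
        = (|C| * (c / (2 * (|C| + 1)))) * R ^ (1 - s) := by ring
      _ ≤ _ := mul_le_mul_of_nonneg_right this hpos.le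
  nlinarith

/-- the factorisation of the oscillatory integral -/
lemma fub2 (σ : ℂ) (g : ℂ → Z → ℂ) (hg : Continuous fun p : ℂ × Z => g p.1 p.2) (ρ s : ℝ)
    (hρ : 0 < ρ) (hs : s ≤ 3 / 2 * ρ) (φ : Z → ℝ) (hφ : Continuous φ)
    (h : tsupport φ ⊆ Metric.closedBall 0 s) (a : ℂ → ℂ) (ha : Continuous a) :
    ∫ q : E, cexp (I * ((σ * (a q.2.1 + g q.1 q.2.2)).re : ℂ)) * (Psi ρ φ q : ℂ) =
      (∫ y : ℂ, cexp (I * ((σ * a y).re : ℂ)) * (chi ρ y : ℂ)) *
        ∫ x : ℂ, ∫ z : Z, cexp (I * ((σ * g x z).re : ℂ)) * ((chi ρ x * φ z : ℝ) : ℂ) := by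
  have hcont : Continuous fun q : E =>
      cexp (I * ((σ * (a q.2.1 + g q.1 q.2.2)).re : ℂ)) * (Psi ρ φ q : ℂ) := by
    have h1 : Continuous (chi ρ) := (chi_smooth ρ).continuous
    have h2 : Continuous (Psi ρ φ) := by
      unfold Psi
      fun_prop
    have h3 : Continuous fun q : E => g q.1 q.2.2 :=
      hg.comp (continuous_fst.prodMk (continuous_snd.comp continuous_snd))
    fun_prop
  have hcs : HasCompactSupport fun q : E =>
      cexp (I * ((σ * (a q.2.1 + g q.1 q.2.2)).re : ℂ)) * (Psi ρ φ q : ℂ) := by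
    apply HasCompactSupport.mul_left
    exact (Psi_compact hρ hs h).comp_left (g := fun t : ℝ => (t : ℂ)) (by simp)
  have hint := hcont.integrable_of_hasCompactSupport (μ := volume) hcs
  rw [Measure.volume_eq_prod] at hint ⊢
  rw [integral_prod _ hint, ← integral_const_mul]
  congr 1
  ext x
  have := integral_prod_mul (μ := (volume : Measure ℂ)) (ν := (volume : Measure Z))
    (fun y : ℂ => cexp (I * ((σ * a y).re : ℂ)) * (chi ρ y : ℂ))
    (fun z : Z => cexp (I * ((σ * g x z).re : ℂ)) * ((chi ρ x * φ z : ℝ) : ℂ))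
  rw [← this, Measure.volume_eq_prod]
  congr 1
  ext q
  have e1 : cexp (I * ((σ * (a q.1 + g x q.2)).re : ℂ)) =
      cexp (I * ((σ * a q.1).re : ℂ)) * cexp (I * ((σ * g x q.2).re : ℂ)) := by
    rw [← Complex.exp_add, mul_add σ, Complex.add_re, Complex.ofReal_add, mul_add I]
  unfold Psi
  simp only
  rw [e1]
  push_cast
  ring

lemma norm_osc (σ : ℂ) (h : Z → ℂ) (W : Z → ℝ) (hW : ∀ z, 0 ≤ W z) :
    ‖∫ z, cexp (I * ((σ * h z).re : ℂ)) * (W z : ℂ)‖ ≤ ∫ z, W z := by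
  refine (norm_integral_le_integral_norm _).trans (le_of_eq ?_)
  congr 1
  ext z
  rw [norm_mul, mul_comm I, Complex.norm_exp_ofReal_mul_I, one_mul, Complex.norm_real,
    Real.norm_of_nonneg (hW z)]

lemma hm2 (B C : Z → ℂ) (hB : Van 2 B) (hC : Van 3 C) :
    Measurable fun z : Z => C z - B z ^ 2 / z 0 := by
  have h1 := hB.1.continuous.measurable
  have h2 := hC.1.continuous.measurable
  exact h2.sub ((h1.pow_const 2).div (measurable_pi_apply 0))

lemma hg2 (B C : Z → ℂ) (hB : Van 2 B) (hC : Van 3 C) :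
    Continuous fun p : ℂ × Z => p.2 0 * p.1 ^ 2 + 2 * B p.2 * p.1 + C p.2 := by
  have h1 := hB.1.continuous
  have h2 := hC.1.continuous
  fun_prop

theorem stmtTYPE2 (hK : G_KEY 2) (hN : G_N1) (hD : G_D1) (hL : G_LB2) : G_TYPE2 := by
  intro B C hB hC hgood
  have hcont : Continuous (fun q : E =>
      q.2.1 ^ 2 + (q.2.2 0 * q.1 ^ 2 + 2 * B q.2.2 * q.1 + C q.2.2)) := by
    have h1 := hB.1.continuous
    have h2 := hC.1.continuous
    fun_prop
  obtain ⟨r, hr, hkey⟩ := hK _ hcont hgood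
  have hρ : 0 < r / 2 := by positivity
  obtain ⟨r', hr', hD'⟩ := hD B C hB hC (chi (r / 2)) (chi_smooth _) (chi_compact hρ)
    (fun y => ⟨chi_nonneg _ y, chi_le_one _ y⟩) (chi_eventually hρ)
  obtain ⟨φ, hφs, hφc, hφt, hφn, hφ1⟩ := exists_phi (s := min r r') (lt_min hr hr')
  have hsub : tsupport φ ⊆ Metric.ball 0 r' := by
    refine hφt.trans (Metric.closedBall_subset_ball ?_)
    have := min_le_right r r'
    linarith
  obtain ⟨hint, K2, hK2⟩ := hD' φ hφs hφc hsub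
  obtain ⟨c, K1, hc, hK1⟩ := hN (chi (r / 2)) (chi_smooth _) (chi_compact hρ) (chi_radial _)
    (chi_nonneg _) (chi_eventually hρ)
  have hs : min r r' / 2 ≤ 3 / 2 * (r / 2) := by
    have := min_le_left r r'
    linarith
  have hW : ∀ z : Z, 0 ≤ φ z / ‖z 0‖ := fun z => div_nonneg (hφn z) (norm_nonneg _)
  have hK1' : 0 ≤ K1 := by
    have := (norm_nonneg _).trans (hK1 1 (by simp))
    simpa using this
  have hK2' : 0 ≤ K2 := by
    have := (norm_nonneg _).trans (hK2 1 (by simp))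
    simpa using this
  have hw0 : 0 ≤ ∫ z : Z, φ z / ‖z 0‖ := integral_nonneg hW
  obtain ⟨C', k, hfin⟩ := hkey (Psi (r / 2) φ) (Psi_smooth _ hφs) (Psi_compact hρ hs hφt)
    (Psi_tsupport hρ hs (by linarith) hφt) (fun z => φ z / ‖z 0‖)
    (fun z => C z - B z ^ 2 / z 0) hW hint (hm2 B C hB hC) (c * Real.pi)
    ((c + K1) * K2 + K1 * (Real.pi * ∫ z : Z, φ z / ‖z 0‖)) (by positivity) (by
      intro σ hσ
      have hf := fub2 σ (fun x z => z 0 * x ^ 2 + 2 * B z * x + C z) (hg2 B C hB hC) (r / 2)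
        (min r r' / 2) hρ hs φ hφs.continuous hφt (fun y => y ^ 2) (by fun_prop)
      beta_reduce at hf
      rw [hf]
      set al := ∫ y : ℂ, cexp (I * ((σ * y ^ 2).re : ℂ)) * (chi (r / 2) y : ℂ) with hal
      set Ag := ∫ x : ℂ, ∫ z : Z, cexp (I * ((σ * (z 0 * x ^ 2 + 2 * B z * x + C z)).re : ℂ)) *
        ((chi (r / 2) x * φ z : ℝ) : ℂ) with hAg
      set M := ∫ z : Z, cexp (I * ((σ * (C z - B z ^ 2 / z 0)).re : ℂ)) *
        ((φ z / ‖z 0‖ : ℝ) : ℂ) with hM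
      have hMn : ‖M‖ ≤ ∫ z : Z, φ z / ‖z 0‖ := norm_osc σ _ _ hW
      have e1 := hK1 σ hσ
      have e2 := hK2 σ hσ
      rw [← hal] at e1
      rw [← hAg, ← hM] at e2
      have hσ0 : 0 < ‖σ‖ := by linarith
      have hσ4 : 1 ≤ ‖σ‖ ^ 4 := one_le_pow₀ hσ
      have n1 : ‖al‖ ≤ c + K1 := by
        have : al = (al - c / ‖σ‖) + c / ‖σ‖ := by ring
        rw [this]
        refine (norm_add_le _ _).trans ?_
        have a1 : ‖al - (c : ℂ) / ‖σ‖‖ ≤ K1 := by
          refine e1.trans ?_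
          exact div_le_self hK1' hσ4
        have a2 : ‖(c : ℂ) / (‖σ‖ : ℂ)‖ ≤ c := by
          rw [norm_div, Complex.norm_real, Complex.norm_real, norm_norm,
            Real.norm_of_nonneg hc.le]
          exact div_le_self hc.le hσ
        linarith
      have key : al * Ag - ((c * Real.pi / ‖σ‖ ^ 2 : ℝ) : ℂ) * M =
          al * (Ag - ((Real.pi / ‖σ‖ : ℝ) : ℂ) * M) +
            (al - (c : ℂ) / (‖σ‖ : ℂ)) * (((Real.pi / ‖σ‖ : ℝ) : ℂ) * M) := by
        have : (‖σ‖ : ℂ) ≠ 0 := by exact_mod_cast hσ0.ne'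
        push_cast
        field_simp
        ring
      rw [key]
      refine (norm_add_le _ _).trans ?_
      rw [norm_mul, norm_mul, norm_mul, Complex.norm_real,
        Real.norm_of_nonneg (div_nonneg Real.pi_pos.le (norm_nonneg σ))]
      have b1 : ‖al‖ * ‖Ag - ((Real.pi / ‖σ‖ : ℝ) : ℂ) * M‖ ≤ (c + K1) * (K2 / ‖σ‖ ^ 4) :=
        mul_le_mul n1 e2 (norm_nonneg _) (by positivity)
      have b2 : ‖al - (c : ℂ) / (‖σ‖ : ℂ)‖ * (Real.pi / ‖σ‖ * ‖M‖) ≤
          K1 / ‖σ‖ ^ 4 * (Real.pi * ∫ z : Z, φ z / ‖z 0‖) := by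
        apply mul_le_mul e1 _ (by positivity) (by positivity)
        apply mul_le_mul _ hMn (norm_nonneg _) Real.pi_pos.le
        exact div_le_self Real.pi_pos.le hσ
      calc _ ≤ (c + K1) * (K2 / ‖σ‖ ^ 4) + K1 / ‖σ‖ ^ 4 * (Real.pi * ∫ z : Z, φ z / ‖z 0‖) :=
            add_le_add b1 b2
        _ = _ := by ring)
  obtain ⟨c₀, R₀, hc₀, hlow⟩ := hL B C hB hC φ hφs hφn hφ1 hint
  exact contra (5 / 6) (by norm_num) c₀ R₀ C' k hc₀ _ (fun R hR => by
    have := hlow R hR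
    exact this) hfin

theorem stmtTYPE3 (hK : G_KEY 1) (hD : G_D1) (hL : G_LB2) : G_TYPE3 := by
  intro B C hB hC hgood
  have hcont : Continuous (fun q : E =>
      q.2.2 0 * q.1 ^ 2 + 2 * B q.2.2 * q.1 + C q.2.2) := by
    have h1 := hB.1.continuous
    have h2 := hC.1.continuous
    fun_prop
  obtain ⟨r, hr, hkey⟩ := hK _ hcont hgood
  have hρ : 0 < r / 2 := by positivity
  obtain ⟨r', hr', hD'⟩ := hD B C hB hC (chi (r / 2)) (chi_smooth _) (chi_compact hρ)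
    (fun y => ⟨chi_nonneg _ y, chi_le_one _ y⟩) (chi_eventually hρ)
  obtain ⟨φ, hφs, hφc, hφt, hφn, hφ1⟩ := exists_phi (s := min r r') (lt_min hr hr')
  have hsub : tsupport φ ⊆ Metric.ball 0 r' := by
    refine hφt.trans (Metric.closedBall_subset_ball ?_)
    have := min_le_right r r'
    linarith
  obtain ⟨hint, K2, hK2⟩ := hD' φ hφs hφc hsub
  have hs : min r r' / 2 ≤ 3 / 2 * (r / 2) := by
    have := min_le_left r r'
    linarith
  have hW : ∀ z : Z, 0 ≤ φ z / ‖z 0‖ := fun z => div_nonneg (hφn z) (norm_nonneg _)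
  set c : ℝ := ∫ y, chi (r / 2) y with hcdef
  have hc : 0 < c := by
    have hcc : Continuous (chi (r / 2)) := (chi_smooth _).continuous
    rw [hcdef, integral_pos_iff_support_of_nonneg (chi_nonneg _)
      (hcc.integrable_of_hasCompactSupport (chi_compact hρ))]
    have hopen : IsOpen (Function.support (chi (r / 2))) := hcc.isOpen_support
    have hne : (Function.support (chi (r / 2))).Nonempty := by
      refine ⟨0, ?_⟩
      rw [Function.mem_support, chi_eq_one hρ (by simpa using hρ.le)]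
      exact one_ne_zero
    exact hopen.measure_pos volume hne
  obtain ⟨C', k, hfin⟩ := hkey (Psi (r / 2) φ) (Psi_smooth _ hφs) (Psi_compact hρ hs hφt)
    (Psi_tsupport hρ hs (by linarith) hφt) (fun z => φ z / ‖z 0‖)
    (fun z => C z - B z ^ 2 / z 0) hW hint (hm2 B C hB hC) (c * Real.pi)
    (c * K2) (by positivity) (by
      intro σ hσ
      have hf := fub2 σ (fun x z => z 0 * x ^ 2 + 2 * B z * x + C z) (hg2 B C hB hC) (r / 2)
        (min r r' / 2) hρ hs φ hφs.continuous hφt (fun y => 0) (by fun_prop)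
      simp only [zero_add, mul_zero, Complex.zero_re, Complex.ofReal_zero, Complex.exp_zero,
        one_mul] at hf
      rw [hf]
      rw [integral_complex_ofReal, ← hcdef]
      set Ag := ∫ x : ℂ, ∫ z : Z, cexp (I * ((σ * (z 0 * x ^ 2 + 2 * B z * x + C z)).re : ℂ)) *
        ((chi (r / 2) x * φ z : ℝ) : ℂ) with hAg
      set M := ∫ z : Z, cexp (I * ((σ * (C z - B z ^ 2 / z 0)).re : ℂ)) *
        ((φ z / ‖z 0‖ : ℝ) : ℂ) with hM
      have e2 := hK2 σ hσ
      rw [← hAg, ← hM] at e2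
      have key : (c : ℂ) * Ag - ((c * Real.pi / ‖σ‖ ^ 1 : ℝ) : ℂ) * M =
          (c : ℂ) * (Ag - ((Real.pi / ‖σ‖ : ℝ) : ℂ) * M) := by
        push_cast
        ring
      rw [key, norm_mul, Complex.norm_real, Real.norm_of_nonneg hc.le, mul_div_assoc]
      exact mul_le_mul_of_nonneg_left e2 hc.le)
  obtain ⟨c₀, R₀, hc₀, hlow⟩ := hL B C hB hC φ hφs hφn hφ1 hint
  exact contra (5 / 6) (by norm_num) c₀ R₀ C' k hc₀ _ (fun R hR => by
    have := hlow R hR
    exact this) hfin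

/-- Fubini for type 5 -/
lemma fub5 (σ : ℂ) (g : ℂ → ℂ → Z → ℂ) (hg : Continuous fun p : E => g p.1 p.2.1 p.2.2)
    (ρ s : ℝ) (hρ : 0 < ρ) (hs : s ≤ 3 / 2 * ρ) (φ : Z → ℝ) (hφ : Continuous φ)
    (h : tsupport φ ⊆ Metric.closedBall 0 s) :
    ∫ q : E, cexp (I * ((σ * g q.1 q.2.1 q.2.2).re : ℂ)) * (Psi ρ φ q : ℂ) =
      ∫ x : ℂ, ∫ y : ℂ, ∫ z : Z, cexp (I * ((σ * g x y z).re : ℂ)) *
        ((chi ρ x * chi ρ y * φ z : ℝ) : ℂ) := by
  have h1 : Continuous (chi ρ) := (chi_smooth ρ).continuous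
  have hcont : Continuous fun q : E =>
      cexp (I * ((σ * g q.1 q.2.1 q.2.2).re : ℂ)) * (Psi ρ φ q : ℂ) := by
    have h2 : Continuous (Psi ρ φ) := by
      unfold Psi
      fun_prop
    fun_prop
  have hcs : HasCompactSupport fun q : E =>
      cexp (I * ((σ * g q.1 q.2.1 q.2.2).re : ℂ)) * (Psi ρ φ q : ℂ) := by
    apply HasCompactSupport.mul_left
    exact (Psi_compact hρ hs h).comp_left (g := fun t : ℝ => (t : ℂ)) (by simp)
  have hint := hcont.integrable_of_hasCompactSupport (μ := volume) hcs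
  rw [Measure.volume_eq_prod] at hint ⊢
  rw [integral_prod _ hint]
  congr 1
  ext x
  have hcont2 : Continuous fun q : ℂ × Z =>
      cexp (I * ((σ * g x q.1 q.2).re : ℂ)) * (Psi ρ φ (x, q) : ℂ) :=
    hcont.comp (by fun_prop : Continuous fun q : ℂ × Z => ((x, q) : E))
  have hcs2 : HasCompactSupport fun q : ℂ × Z =>
      cexp (I * ((σ * g x q.1 q.2).re : ℂ)) * (Psi ρ φ (x, q) : ℂ) := by
    apply HasCompactSupport.mul_left
    have : HasCompactSupport fun q : ℂ × Z => Psi ρ φ (x, q) := by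
      apply HasCompactSupport.of_support_subset_isCompact
        (isCompact_closedBall (0 : ℂ × Z) (3 / 2 * ρ))
      intro q hq
      have := Psi_support hρ hs h (show (x, q) ∈ Function.support (Psi ρ φ) from hq)
      rw [mem_closedBall_zero_iff, Prod.norm_def] at this
      rw [mem_closedBall_zero_iff]
      exact (le_max_right _ _).trans this
    exact this.comp_left (g := fun t : ℝ => (t : ℂ)) (by simp)
  have hint2 := hcont2.integrable_of_hasCompactSupport (μ := volume) hcs2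
  rw [Measure.volume_eq_prod] at hint2 ⊢
  rw [integral_prod _ hint2]
  congr 1
  ext y
  congr 1
  ext z
  unfold Psi
  simp only
  push_cast
  ring

theorem stmtTYPE5 (hK : G_KEY 2) (hD : G_D2) (hL : G_LB5) : G_TYPE5 := by
  intro κ hκ N₁ N₂ C hN₁ hN₂ hC hgood
  have h1 := hN₁.1.continuous
  have h2 := hN₂.1.continuous
  have h3 := hC.1.continuous
  have hcont : Continuous (fun q : E => gg5 κ N₁ N₂ C q.1 q.2.1 q.2.2) := by
    unfold gg5
    fun_prop
  obtain ⟨r, hr, hkey⟩ := hK _ hcont hgood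
  have hρ : 0 < r / 2 := by positivity
  obtain ⟨r', hr', hD'⟩ := hD κ N₁ N₂ C hN₁ hN₂ hC (chi (r / 2)) (chi_smooth _) (chi_compact hρ)
    (fun y => ⟨chi_nonneg _ y, chi_le_one _ y⟩) (chi_eventually hρ)
  obtain ⟨φ, hφs, hφc, hφt, hφn, hφ1⟩ := exists_phi (s := min r r') (lt_min hr hr')
  have hsub : tsupport φ ⊆ Metric.ball 0 r' := by
    refine hφt.trans (Metric.closedBall_subset_ball ?_)
    have := min_le_right r r'
    linarith
  obtain ⟨hint, K2, hK2⟩ := hD' φ hφs hφc hsub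
  have hs : min r r' / 2 ≤ 3 / 2 * (r / 2) := by
    have := min_le_left r r'
    linarith
  have hW : ∀ z : Z, 0 ≤ φ z / ‖z 0 * z 1 - (κ * z 2) ^ 2‖ :=
    fun z => div_nonneg (hφn z) (norm_nonneg _)
  have hmeas : Measurable (hh5 κ N₁ N₂ C) := by
    unfold hh5
    have m1 := h1.measurable
    have m2 := h2.measurable
    have m3 := h3.measurable
    fun_prop
  obtain ⟨C', k, hfin⟩ := hkey (Psi (r / 2) φ) (Psi_smooth _ hφs) (Psi_compact hρ hs hφt)
    (Psi_tsupport hρ hs (by linarith) hφt) (fun z => φ z / ‖z 0 * z 1 - (κ * z 2) ^ 2‖)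
    (hh5 κ N₁ N₂ C) hW hint hmeas (Real.pi ^ 2) K2 (by positivity) (by
      intro σ hσ
      have hf := fub5 σ (gg5 κ N₁ N₂ C) hcont (r / 2)
        (min r r' / 2) hρ hs φ hφs.continuous hφt
      rw [hf]
      exact hK2 σ hσ)
  obtain ⟨c₀, R₀, hc₀, hlow⟩ := hL κ hκ N₁ N₂ C hN₁ hN₂ hC φ hφs hφn hφ1 hint
  exact contra (2 / 3) (by norm_num) c₀ R₀ C' k hc₀ _ (fun R hR => by
    have := hlow R hR
    exact this) hfin

end Pool.Agent.Helper19.CF
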